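import Mathlib
import Pool.Agent.Helper303.MbDom2

open MeasureTheory Set
open Pool.Agent.Helper303.Mb

namespace Pool.Agent.Results.MP_9749df_an.MatrixBallFails

/-- For all `p, q ≥ 2` the matrix ball `{Z ∈ ℂ^{p×q} : I_q - Z^* Z > 0}` (a bounded, open, convex,
circular domain containing `0`) does not admit sup-norm estimates for `∂̄`. -/
theorem result : ∀ p q : ℕ, 2 ≤ p → 2 ≤ q →
    (IsOpen (matrixBall p q) ∧ Convex ℝ (matrixBall p q) ∧ Bornology.IsBounded (matrixBall p q) ∧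
      0 ∈ matrixBall p q ∧
      ∀ z ∈ matrixBall p q, ∀ c : ℂ, ‖c‖ = 1 → (fun k => c * z k) ∈ matrixBall p q) ∧
    ¬ SupNormEstimates (matrixBall p q) := by
  intro p q hp hq
  refine ⟨⟨isOpen_matrixBall p q, convex_matrixBall p q, bounded_matrixBall p q,
    zero_mem_matrixBall p q, fun z hz c hc => circular_matrixBall hz hc⟩, ?_⟩
  obtain ⟨p', rfl⟩ : ∃ p', p = p' + 2 := ⟨p - 2, by omega⟩
  obtain ⟨q', rfl⟩ : ∃ q', q = q' + 2 := ⟨q - 2, by omega⟩
  exact matrixBall_sup p' q'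

end Pool.Agent.Results.MP_9749df_an.MatrixBallFails
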